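import Pool.Agent.T2H11.RTP.Net

set_option autoImplicit false

open MeasureTheory Filter Topology Finset

namespace Pool.Agent.T2H11.RTP

open Pool.Agent.T2H98.RT (P tw b pMUL pOR pDIV)

/-- the points of the net -/
noncomputable def pts (d A H : ℕ) (c : Fin (d + 1) → ℕ) : Fin (d + 1) → ℝ :=
  fun j => (c j : ℝ) / (H : ℝ) ^ ((A + 1) * d + 1)

/-- the exceptional event at `H` -/
def Ev (a : ℕ → ℂ) (d A r H : ℕ) : Set (ℕ → ℝ) :=
  ⋃ q ∈ range (H ^ A + 1) ×ˢ Fintype.piFinset (fun _ : Fin (d + 1) => range (H ^ ((A + 1) * d + 1))),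
    {θ | (H : ℝ) ^ (1 / 2 + 1 / (r : ℝ)) ≤ ‖W a θ d (pts d A H q.2) q.1 H‖}

lemma W_cont (a : ℕ → ℂ) (d : ℕ) (α : Fin (d + 1) → ℝ) (M H : ℕ) : Continuous (fun θ : ℕ → ℝ => W a θ d α M H) := by
  unfold W
  refine continuous_finsetSum _ fun n _ => ?_
  exact (continuous_const.mul (pMUL.2.2.2 n)).mul continuous_const

lemma W_le (a : ℕ → ℂ) (ha : ∀ n, ‖a n‖ ≤ 1) (θ : ℕ → ℝ) (d : ℕ) (α : Fin (d + 1) → ℝ) (M H : ℕ) :
    ‖W a θ d α M H‖ ≤ H := by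
  unfold W
  calc ‖∑ n ∈ Ioc M (M + H), a n * tw θ n * e (phase d α n)‖
      ≤ ∑ n ∈ Ioc M (M + H), (1 : ℝ) := by
        refine (norm_sum_le _ _).trans (sum_le_sum fun n _ => ?_)
        rw [norm_mul, norm_mul, pMUL.2.1, norm_e, mul_one, mul_one]
        exact ha n
    _ = H := by
        rw [sum_const, Nat.card_Ioc, Nat.add_sub_cancel_left, nsmul_eq_mul, mul_one]

lemma markov (a : ℕ → ℂ) (ha : ∀ n, ‖a n‖ ≤ 1) (d k : ℕ) (C : ℝ) (α : Fin (d + 1) → ℝ) (M H : ℕ) (hH : 1 ≤ H)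
    (lam : ℝ) (hlam : 0 < lam)
    (hC : ∀ g : ℕ → ℂ, (∀ n, ‖g n‖ ≤ 1) →
      ∫ θ, ‖∑ n ∈ Ioc M (M + H), g n * tw θ n‖ ^ (2 * k) ∂P ≤ C * (H : ℝ) ^ (k + 1)) :
    P.real {θ | lam ≤ ‖W a θ d α M H‖} ≤ C * (H : ℝ) ^ (k + 1) / lam ^ (2 * k) := by
  have hp : 0 < lam ^ (2 * k) := by positivity
  rw [le_div_iff₀ hp]
  have hint : Integrable (fun θ => ‖W a θ d α M H‖ ^ (2 * k)) P := by
    refine Integrable.of_bound ((W_cont a d α M H).norm.pow (2 * k)).measurable.aestronglyMeasurable ((H : ℝ) ^ (2 * k))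
      (Eventually.of_forall fun θ => ?_)
    rw [Real.norm_eq_abs, abs_of_nonneg (pow_nonneg (norm_nonneg _) _)]
    exact pow_le_pow_left₀ (norm_nonneg _) (W_le a ha θ d α M H) _
  have h1 := mul_meas_ge_le_integral_of_nonneg (μ := P) (f := fun θ => ‖W a θ d α M H‖ ^ (2 * k))
    (ae_of_all P fun θ => pow_nonneg (norm_nonneg _) (2 * k)) hint (lam ^ (2 * k))
  have h2 : {θ | lam ≤ ‖W a θ d α M H‖} ⊆ {θ | lam ^ (2 * k) ≤ ‖W a θ d α M H‖ ^ (2 * k)} := by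
    intro θ hθ
    have hθ' : lam ≤ ‖W a θ d α M H‖ := hθ
    show lam ^ (2 * k) ≤ ‖W a θ d α M H‖ ^ (2 * k)
    exact pow_le_pow_left₀ hlam.le hθ' _
  have h3 : P.real {θ | lam ≤ ‖W a θ d α M H‖} ≤ P.real {θ | lam ^ (2 * k) ≤ ‖W a θ d α M H‖ ^ (2 * k)} :=
    measureReal_mono h2 (measure_ne_top P _)
  have h4 : ∫ θ, ‖W a θ d α M H‖ ^ (2 * k) ∂P ≤ C * (H : ℝ) ^ (k + 1) := by
    have h5 := hC (fun n => a n * e (phase d α n)) (fun n => by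
      rw [norm_mul, norm_e, mul_one]
      exact ha n)
    have h6 : ∀ θ, W a θ d α M H = ∑ n ∈ Ioc M (M + H), (a n * e (phase d α n)) * tw θ n := by
      intro θ
      unfold W
      exact sum_congr rfl fun n _ => by ring
    simp_rw [h6]
    exact h5
  calc P.real {θ | lam ≤ ‖W a θ d α M H‖} * lam ^ (2 * k)
      ≤ P.real {θ | lam ^ (2 * k) ≤ ‖W a θ d α M H‖ ^ (2 * k)} * lam ^ (2 * k) := by gcongr
    _ = lam ^ (2 * k) * P.real {θ | lam ^ (2 * k) ≤ ‖W a θ d α M H‖ ^ (2 * k)} := mul_comm _ _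
    _ ≤ _ := h1
    _ ≤ _ := h4

lemma ev_bound (d A r L : ℕ) (hr : 1 ≤ r) : ∃ C : ℝ, 0 < C ∧ ∀ a : ℕ → ℂ, (∀ n, ‖a n‖ ≤ 1) →
    ∀ H : ℕ, 1 ≤ H → P.real (Ev a d A r H) ≤ C * (1 / (H : ℝ) ^ (L + 2)) := by
  set B : ℕ := (A + 1) * d + 1 with hB
  set k : ℕ := r * (A + B * (d + 1) + L + 3) with hk
  have hk1 : 1 ≤ k := Nat.mul_pos hr (by omega)
  obtain ⟨C, hC, hmom⟩ := mom_interval k A hk1
  refine ⟨2 * C, by positivity, fun a ha H hH => ?_⟩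
  have hH1 : (1 : ℝ) ≤ H := by exact_mod_cast hH
  have hH0 : (0 : ℝ) < H := by linarith
  have hr0 : (0 : ℝ) < r := by exact_mod_cast hr
  have hlam : 0 < (H : ℝ) ^ (1 / 2 + 1 / (r : ℝ)) := by positivity
  have hpow : ((H : ℝ) ^ (1 / 2 + 1 / (r : ℝ))) ^ (2 * k) = (H : ℝ) ^ (k + 2 * (A + B * (d + 1) + L + 3)) := by
    rw [← Real.rpow_natCast, ← Real.rpow_mul hH0.le, ← Real.rpow_natCast]
    congr 1
    rw [hk]
    push_cast
    field_simp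
  have h1 : ∀ q ∈ range (H ^ A + 1) ×ˢ Fintype.piFinset (fun _ : Fin (d + 1) => range (H ^ B)),
      P.real {θ | (H : ℝ) ^ (1 / 2 + 1 / (r : ℝ)) ≤ ‖W a θ d (pts d A H q.2) q.1 H‖} ≤
        C * (H : ℝ) ^ (k + 1) / (H : ℝ) ^ (k + 2 * (A + B * (d + 1) + L + 3)) := by
    intro q hq
    have h2 := mem_range.1 (mem_product.1 hq).1
    rw [← hpow]
    exact markov a ha d k C _ q.1 H hH _ hlam fun g hg => hmom q.1 H hH (by omega) g hg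
  calc P.real (Ev a d A r H) ≤ ∑ q ∈ range (H ^ A + 1) ×ˢ Fintype.piFinset (fun _ : Fin (d + 1) => range (H ^ B)),
        P.real {θ | (H : ℝ) ^ (1 / 2 + 1 / (r : ℝ)) ≤ ‖W a θ d (pts d A H q.2) q.1 H‖} :=
        measureReal_biUnion_finset_le _ _
    _ ≤ ∑ q ∈ range (H ^ A + 1) ×ˢ Fintype.piFinset (fun _ : Fin (d + 1) => range (H ^ B)),
        C * (H : ℝ) ^ (k + 1) / (H : ℝ) ^ (k + 2 * (A + B * (d + 1) + L + 3)) := sum_le_sum h1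
    _ = ((H : ℝ) ^ A + 1) * ((H : ℝ) ^ B) ^ (d + 1) *
        (C * (H : ℝ) ^ (k + 1) / (H : ℝ) ^ (k + 2 * (A + B * (d + 1) + L + 3))) := by
        rw [sum_const, nsmul_eq_mul, card_product, card_range, Fintype.card_piFinset, prod_const, card_univ,
          Fintype.card_fin, card_range]
        push_cast
        rfl
    _ ≤ (2 * (H : ℝ) ^ A) * ((H : ℝ) ^ B) ^ (d + 1) *
        (C * (H : ℝ) ^ (k + 1) / (H : ℝ) ^ (k + 2 * (A + B * (d + 1) + L + 3))) := by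
        have : 1 ≤ (H : ℝ) ^ A := one_le_pow₀ hH1
        gcongr
        linarith
    _ = 2 * C * ((H : ℝ) ^ (A + B * (d + 1) + k + 1) / (H : ℝ) ^ (k + 2 * (A + B * (d + 1) + L + 3))) := by
        rw [← pow_mul]
        ring
    _ ≤ 2 * C * (1 / (H : ℝ) ^ (L + 2)) := by
        refine mul_le_mul_of_nonneg_left ?_ (by positivity)
        rw [div_le_div_iff₀ (by positivity) (by positivity), one_mul, ← pow_add]
        exact pow_le_pow_right₀ hH1 (by omega)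

/-- the family version of the Borel-Cantelli step -/
lemma key (ι : ℕ → Type) [∀ H, Fintype (ι H)] (g : ∀ H, ι H → ℕ → ℂ) (hg : ∀ H i n, ‖g H i n‖ ≤ 1) (L K₀ : ℕ)
    (hL : ∀ H : ℕ, 1 ≤ H → Fintype.card (ι H) ≤ K₀ * H ^ L) (d A r : ℕ) (hr : 1 ≤ r) :
    ∀ᵐ θ ∂P, ∃ N : ℕ, ∀ H : ℕ, N ≤ H → 1 ≤ H → ∀ M : ℕ, M ≤ H ^ A → ∀ (i : ι H) (α : Fin (d + 1) → ℝ),
      ‖W (g H i) θ d α M H‖ ≤ (H : ℝ) ^ (1 / 2 + 1 / (r : ℝ)) + 2 * Real.pi * ((d + 1) * 2 ^ d) := by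
  obtain ⟨C, hC, hev⟩ := ev_bound d A r L hr
  have hev2 : ∀ H : ℕ, 1 ≤ H → P.real (⋃ i ∈ (univ : Finset (ι H)), Ev (g H i) d A r H) ≤ K₀ * C * (1 / (H : ℝ) ^ 2) := by
    intro H hH
    have hH0 : (0 : ℝ) < H := by exact_mod_cast hH
    calc P.real (⋃ i ∈ (univ : Finset (ι H)), Ev (g H i) d A r H)
        ≤ ∑ i : ι H, P.real (Ev (g H i) d A r H) := measureReal_biUnion_finset_le _ _
      _ ≤ ∑ _i : ι H, C * (1 / (H : ℝ) ^ (L + 2)) := sum_le_sum fun i _ => hev _ (hg H i) H hH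
      _ = (Fintype.card (ι H) : ℝ) * (C * (1 / (H : ℝ) ^ (L + 2))) := by
          rw [sum_const, card_univ, nsmul_eq_mul]
      _ ≤ (K₀ * (H : ℝ) ^ L) * (C * (1 / (H : ℝ) ^ (L + 2))) := by
          gcongr
          exact_mod_cast hL H hH
      _ = K₀ * C * (1 / (H : ℝ) ^ 2) := by
          rw [pow_add]
          field_simp
  have h1 : (∑' n : ℕ, P (⋃ i ∈ (univ : Finset (ι (n + 1))), Ev (g (n + 1) i) d A r (n + 1))) ≠ ⊤ := by
    have h2 : Summable (fun n : ℕ => K₀ * C * (1 / ((n + 1 : ℕ) : ℝ) ^ 2)) := by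
      have h3 := (summable_nat_add_iff (f := fun n : ℕ => 1 / (n : ℝ) ^ 2) 1).2
        (Real.summable_one_div_nat_pow.2 one_lt_two)
      exact h3.mul_left (K₀ * C)
    refine ne_top_of_le_ne_top h2.tsum_ofReal_ne_top (ENNReal.tsum_le_tsum fun n => ?_)
    have h3 := hev2 (n + 1) (by omega)
    rw [← ENNReal.ofReal_toReal (measure_ne_top P (⋃ i ∈ (univ : Finset (ι (n + 1))), Ev (g (n + 1) i) d A r (n + 1)))]
    exact ENNReal.ofReal_le_ofReal h3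
  filter_upwards [ae_eventually_notMem h1] with θ hθ
  obtain ⟨N, hN⟩ := eventually_atTop.1 hθ
  refine ⟨N + 1, fun H hH hH1 M hM i α => ?_⟩
  obtain ⟨H', rfl⟩ : ∃ H', H = H' + 1 := ⟨H - 1, by omega⟩
  have h2 := hN H' (by omega)
  obtain ⟨c, hc, hclose⟩ := net d A M (H' + 1) hH1 hM (g (H' + 1) i) (hg _ i) θ α
  have h3 : ‖W (g (H' + 1) i) θ d (pts d A (H' + 1) c) M (H' + 1)‖ < ((H' + 1 : ℕ) : ℝ) ^ (1 / 2 + 1 / (r : ℝ)) := by
    by_contra hcon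
    push Not at hcon
    apply h2
    refine Set.mem_biUnion (x := i) (mem_coe.2 (mem_univ i)) ?_
    unfold Ev
    exact Set.mem_biUnion (x := (M, c)) (mem_coe.2 (mem_product.2 ⟨mem_range.2 (by omega), hc⟩)) hcon
  have h4 : ‖W (g (H' + 1) i) θ d α M (H' + 1) - W (g (H' + 1) i) θ d (pts d A (H' + 1) c) M (H' + 1)‖ ≤
      2 * Real.pi * ((d + 1) * 2 ^ d) := hclose
  calc ‖W (g (H' + 1) i) θ d α M (H' + 1)‖ = ‖W (g (H' + 1) i) θ d (pts d A (H' + 1) c) M (H' + 1) +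
        (W (g (H' + 1) i) θ d α M (H' + 1) - W (g (H' + 1) i) θ d (pts d A (H' + 1) c) M (H' + 1))‖ := by
        congr 1
        ring
    _ ≤ ‖W (g (H' + 1) i) θ d (pts d A (H' + 1) c) M (H' + 1)‖ +
        ‖W (g (H' + 1) i) θ d α M (H' + 1) - W (g (H' + 1) i) θ d (pts d A (H' + 1) c) M (H' + 1)‖ := norm_add_le _ _
    _ ≤ _ := by linarith

/-- almost every twist: uniform square root cancellation for families of polynomial size -/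
theorem main (ι : ℕ → Type) [∀ H, Fintype (ι H)] (g : ∀ H, ι H → ℕ → ℂ) (hg : ∀ H i n, ‖g H i n‖ ≤ 1) (L K₀ : ℕ)
    (hL : ∀ H : ℕ, 1 ≤ H → Fintype.card (ι H) ≤ K₀ * H ^ L) : ∀ᵐ θ ∂P, ∀ (d A : ℕ) (ε : ℝ), 0 < ε → ∃ C : ℝ,
    ∀ M H : ℕ, 1 ≤ H → M ≤ H ^ A → ∀ (i : ι H) (α : Fin (d + 1) → ℝ),
      ‖W (g H i) θ d α M H‖ ≤ C * (H : ℝ) ^ (1 / 2 + ε) := by
  have h1 : ∀ᵐ θ ∂P, ∀ d A r : ℕ, 1 ≤ r → ∃ N : ℕ, ∀ H : ℕ, N ≤ H → 1 ≤ H → ∀ M : ℕ, M ≤ H ^ A →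
      ∀ (i : ι H) (α : Fin (d + 1) → ℝ),
      ‖W (g H i) θ d α M H‖ ≤ (H : ℝ) ^ (1 / 2 + 1 / (r : ℝ)) + 2 * Real.pi * ((d + 1) * 2 ^ d) := by
    rw [ae_all_iff]
    intro d
    rw [ae_all_iff]
    intro A
    rw [ae_all_iff]
    intro r
    by_cases hr : 1 ≤ r
    · filter_upwards [key ι g hg L K₀ hL d A r hr] with θ hθ _
      exact hθ
    · exact Eventually.of_forall fun θ h => absurd h hr
  filter_upwards [h1] with θ hθ d A ε hε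
  obtain ⟨r, hr⟩ := exists_nat_one_div_lt hε
  obtain ⟨N, hN⟩ := hθ d A (r + 1) (by omega)
  have hpi := Real.pi_pos
  set K : ℝ := 2 * Real.pi * ((d + 1) * 2 ^ d) with hK
  have hK0 : 0 ≤ K := by positivity
  refine ⟨1 + K + N, fun M H hH hM i α => ?_⟩
  have hHr : (1 : ℝ) ≤ H := by exact_mod_cast hH
  have hHε : 1 ≤ (H : ℝ) ^ (1 / 2 + ε) := Real.one_le_rpow hHr (by positivity)
  have hN0 : (0 : ℝ) ≤ N := Nat.cast_nonneg _
  by_cases hNH : N ≤ H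
  · have h3 := hN H hNH hH M hM i α
    have h4 : (H : ℝ) ^ (1 / 2 + 1 / ((r + 1 : ℕ) : ℝ)) ≤ (H : ℝ) ^ (1 / 2 + ε) := by
      apply Real.rpow_le_rpow_of_exponent_le hHr
      push_cast
      linarith [hr.le]
    calc ‖W (g H i) θ d α M H‖ ≤ (H : ℝ) ^ (1 / 2 + 1 / ((r + 1 : ℕ) : ℝ)) + K := h3
      _ ≤ (H : ℝ) ^ (1 / 2 + ε) + K * (H : ℝ) ^ (1 / 2 + ε) := by nlinarith
      _ ≤ (1 + K + N) * (H : ℝ) ^ (1 / 2 + ε) := by nlinarith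
  · push Not at hNH
    have h2 := W_le (g H i) (hg H i) θ d α M H
    have h3 : (H : ℝ) ≤ N := by exact_mod_cast hNH.le
    nlinarith

end Pool.Agent.T2H11.RTP
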