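import Pool.Agent.T2H11.RTP.Tw
import Pool.Agent.T2H67.SAr.Avg
import Pool.Agent.Y821.ME.Sf

set_option autoImplicit false

open MeasureTheory Filter Topology Finset

namespace Pool.Agent.T2H11.RTP

open Pool.Agent.T2H98.RT (P tw b pMUL pOR pDIV)

/-- the exponential sum `∑_{n ≤ R} c(n) e(n x)` -/
noncomputable def expSum (c : ℕ → ℂ) (R : ℕ) (x : ℝ) : ℂ :=
  ∑ n ∈ Icc 1 R, c n * Complex.exp (2 * Real.pi * Complex.I * n * x)

/-- the infimum of the `a ≥ 0` for which the sup norm of the exponential sum is `O (R ^ a)` -/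
noncomputable def growthExponent (c : ℕ → ℂ) : ℝ :=
  sInf {a : ℝ | 0 ≤ a ∧ ∃ C : ℝ, ∀ R : ℕ, 1 ≤ R → ∀ x : ℝ, ‖expSum c R x‖ ≤ C * (R : ℝ) ^ a}

/-- the Möbius function times the completely multiplicative function `tw θ` -/
noncomputable def mutw (θ : ℕ → ℝ) (n : ℕ) : ℂ := ((ArithmeticFunction.moebius n : ℤ) : ℂ) * tw θ n

lemma expSum_int (c : ℕ → ℂ) (R : ℕ) (x : ℝ) :
    expSum c R x = ∑ m ∈ (Icc 1 R).map ⟨((↑) : ℕ → ℤ), Nat.cast_injective⟩, c m.toNat * Pool.Agent.T2H67.SAr.E (m * x) := by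
  unfold expSum
  rw [sum_map]
  refine sum_congr rfl fun n _ => ?_
  simp only [Function.Embedding.coeFn_mk, Int.toNat_natCast]
  unfold Pool.Agent.T2H67.SAr.E
  congr 2
  push_cast
  ring

lemma parseval (c : ℕ → ℂ) (R : ℕ) : ∫ u in (0 : ℝ)..1, ‖expSum c R u‖ ^ 2 = ∑ n ∈ Icc 1 R, ‖c n‖ ^ 2 := by
  simp_rw [expSum_int]
  rw [Pool.Agent.T2H67.SAr.parseval, sum_map]
  exact sum_congr rfl fun n _ => by simp

lemma expSum_cont (c : ℕ → ℂ) (R : ℕ) : Continuous (fun x : ℝ => expSum c R x) := by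
  unfold expSum
  refine continuous_finsetSum _ fun n _ => continuous_const.mul (Complex.continuous_exp.comp ?_)
  exact continuous_const.mul Complex.continuous_ofReal

lemma sq_le (c : ℕ → ℂ) (R : ℕ) (B : ℝ) (hB : 0 ≤ B) (h : ∀ x : ℝ, ‖expSum c R x‖ ≤ B) :
    ∑ n ∈ Icc 1 R, ‖c n‖ ^ 2 ≤ B ^ 2 := by
  rw [← parseval]
  calc ∫ u in (0 : ℝ)..1, ‖expSum c R u‖ ^ 2 ≤ ∫ _u in (0 : ℝ)..1, B ^ 2 := by
        refine intervalIntegral.integral_mono_on zero_le_one ?_ intervalIntegrable_const fun x _ => ?_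
        · exact ((expSum_cont c R).norm.pow 2).intervalIntegrable _ _
        · exact pow_le_pow_left₀ (norm_nonneg _) (h x) 2
    _ = B ^ 2 := by simp

lemma mutw_norm (θ : ℕ → ℝ) (n : ℕ) (hn : Squarefree n) : ‖mutw θ n‖ ^ 2 = 1 := by
  unfold mutw
  rw [norm_mul, pMUL.2.1, mul_one]
  rcases ArithmeticFunction.moebius_eq_or n with h | h | h
  · exfalso
    exact (ArithmeticFunction.moebius_ne_zero_iff_squarefree.2 hn) h
  · rw [h]; simp
  · rw [h]; simp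

/-- the exponent is at least `1/2`, by Parseval -/
lemma lower (θ : ℕ → ℝ) (a C : ℝ) (h : ∀ R : ℕ, 1 ≤ R → ∀ x : ℝ, ‖expSum (mutw θ) R x‖ ≤ C * (R : ℝ) ^ a) :
    1 / 2 ≤ a := by
  by_contra hcon
  push Not at hcon
  obtain ⟨N₀, hN₀⟩ := Pool.Agent.Y821.ME.sf
  have h1 : ∀ N : ℕ, N₀ ≤ N → 1 ≤ N → (N : ℝ) / 5 ≤ (C * ((3 * N : ℕ) : ℝ) ^ a) ^ 2 := by
    intro N hN hN1
    have hC0 : 0 ≤ C * ((3 * N : ℕ) : ℝ) ^ a := (norm_nonneg _).trans (h (3 * N) (by omega) 0)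
    have h2 := sq_le (mutw θ) (3 * N) _ hC0 (h (3 * N) (by omega))
    refine (hN₀ N hN).trans (le_trans ?_ h2)
    classical
    calc (((Icc (2 * N) (3 * N)).filter Squarefree).card : ℝ)
        = ∑ n ∈ (Icc (2 * N) (3 * N)).filter Squarefree, ‖mutw θ n‖ ^ 2 := by
          rw [sum_congr rfl fun n hn => mutw_norm θ n (mem_filter.1 hn).2, sum_const, nsmul_eq_mul, mul_one]
      _ ≤ ∑ n ∈ Icc 1 (3 * N), ‖mutw θ n‖ ^ 2 := by
          refine sum_le_sum_of_subset_of_nonneg ?_ fun n _ _ => sq_nonneg _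
          intro n hn
          have h3 := mem_Icc.1 (mem_filter.1 hn).1
          exact mem_Icc.2 ⟨by omega, h3.2⟩
  have h2 : Tendsto (fun N : ℕ => (5 * C ^ 2 * 3 ^ (2 * a)) * (N : ℝ) ^ (2 * a - 1)) atTop (𝓝 0) := by
    have h3 : Tendsto (fun x : ℝ => x ^ (-(1 - 2 * a))) atTop (𝓝 0) := tendsto_rpow_neg_atTop (by linarith)
    have h4 := (h3.comp tendsto_natCast_atTop_atTop).const_mul (5 * C ^ 2 * 3 ^ (2 * a))
    rw [mul_zero] at h4
    refine h4.congr fun N => ?_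
    simp only [Function.comp]
    congr 2
    ring
  have h3 := (tendsto_order.1 h2).2 1 one_pos
  obtain ⟨N, hN, hN2, hN3⟩ := (h3.and ((eventually_ge_atTop N₀).and (eventually_ge_atTop 1))).exists
  have h4 := h1 N hN2 hN3
  have hNr : (0 : ℝ) < N := by exact_mod_cast hN3
  have h5 : (C * ((3 * N : ℕ) : ℝ) ^ a) ^ 2 = C ^ 2 * 3 ^ (2 * a) * ((N : ℝ) ^ (2 * a - 1) * N) := by
    push_cast
    rw [mul_pow, Real.mul_rpow (by norm_num) hNr.le, mul_pow, ← Real.rpow_natCast ((3 : ℝ) ^ a), ← Real.rpow_mul (by norm_num),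
      ← Real.rpow_natCast ((N : ℝ) ^ a), ← Real.rpow_mul hNr.le]
    have h6 : (N : ℝ) ^ (2 * a - 1) * N = (N : ℝ) ^ (a * ((2 : ℕ) : ℝ)) := by
      nth_rewrite 2 [← Real.rpow_one (N : ℝ)]
      rw [← Real.rpow_add hNr]
      congr 1
      push_cast
      ring
    rw [h6]
    have h7 : a * ((2 : ℕ) : ℝ) = 2 * a := by push_cast; ring
    rw [h7]
    ring
  rw [h5] at h4
  have h6 : 5 * C ^ 2 * 3 ^ (2 * a) * (N : ℝ) ^ (2 * a - 1) < 1 := hN
  nlinarith

/-- for almost every twist the growth exponent is `1/2` -/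
theorem exponent : ∀ᵐ θ ∂P, growthExponent (mutw θ) = 1 / 2 := by
  filter_upwards [twists (fun n => ((ArithmeticFunction.moebius n : ℤ) : ℂ)) (fun n => by
    rcases ArithmeticFunction.moebius_eq_or n with h | h | h <;> rw [h] <;> simp)] with θ hθ
  have hup : ∀ ε : ℝ, 0 < ε → ∃ C : ℝ, ∀ R : ℕ, 1 ≤ R → ∀ x : ℝ, ‖expSum (mutw θ) R x‖ ≤ C * (R : ℝ) ^ (1 / 2 + ε) := by
    intro ε hε
    obtain ⟨C, hC⟩ := hθ 1 0 ε hε
    refine ⟨C, fun R hR x => ?_⟩
    have h1 := hC 0 R hR (by omega) 1 le_rfl (by simp) 1 0 (by simp) (fun j => if j = 1 then x else 0)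
    convert h1 using 2
    unfold expSum V mutw
    have hI : Icc 1 R = Ioc 0 (0 + R) := by
      ext n
      simp only [mem_Icc, mem_Ioc]
      omega
    rw [hI]
    refine sum_congr rfl fun n hn => ?_
    have hn1 : (n : ℂ) ≠ 0 := by
      have := (mem_Ioc.1 hn).1
      exact_mod_cast (by omega : n ≠ 0)
    have h2 : phase 1 (fun j => if j = 1 then x else 0) n = n * x := by
      unfold phase
      rw [Fin.sum_univ_two]
      simp
      ring
    rw [h2]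
    have h3 : (1 : DirichletCharacter ℂ 1) (n : ZMod 1) = 1 := MulChar.one_apply (isUnit_of_subsingleton _)
    rw [h3]
    unfold e
    simp only [Complex.ofReal_zero, zero_mul, Complex.cpow_zero, mul_one]
    congr 2
    push_cast
    ring
  apply le_antisymm
  · apply le_of_forall_pos_le_add
    intro ε hε
    obtain ⟨C, hC⟩ := hup ε hε
    exact csInf_le ⟨0, fun a ha => ha.1⟩ ⟨by positivity, C, hC⟩
  · apply le_csInf
    · obtain ⟨C, hC⟩ := hup 1 one_pos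
      exact ⟨1 / 2 + 1, by norm_num, C, hC⟩
    · rintro a ⟨_, C, hC⟩
      exact lower θ a C hC

end Pool.Agent.T2H11.RTP
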