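import Pool.Agent.T2H98.RT.MUL
import Pool.Agent.T2H98.RT.OR
import Pool.Agent.T2H98.RT.DIV

/-!
Exponential sums with polynomial phases over short intervals for almost every completely multiplicative
unimodular twist.
-/

set_option autoImplicit false

open MeasureTheory Filter Topology Finset

namespace Pool.Agent.T2H11.RTP

open Pool.Agent.T2H98.RT (P tw b pMUL pOR pDIV)

/-- `e(x) = exp (2 π i x)` -/
noncomputable def e (x : ℝ) : ℂ := Complex.exp (((2 * Real.pi * x : ℝ) : ℂ) * Complex.I)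

/-- the polynomial `α 0 + α 1 n + ... + α d n ^ d` -/
noncomputable def phase (d : ℕ) (α : Fin (d + 1) → ℝ) (n : ℕ) : ℝ := ∑ j, α j * (n : ℝ) ^ (j : ℕ)

/-- the sum of `a(n) f(n) e(p(n))` over `M < n ≤ M + H` -/
noncomputable def W (a : ℕ → ℂ) (θ : ℕ → ℝ) (d : ℕ) (α : Fin (d + 1) → ℝ) (M H : ℕ) : ℂ :=
  ∑ n ∈ Ioc M (M + H), a n * tw θ n * e (phase d α n)

lemma norm_e (x : ℝ) : ‖e x‖ = 1 := by
  unfold e
  exact Complex.norm_exp_ofReal_mul_I _

lemma e_add_int (x : ℝ) (m : ℤ) : e (x + m) = e x := by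
  unfold e
  have : (((2 * Real.pi * (x + m) : ℝ) : ℂ) * Complex.I) =
      ((2 * Real.pi * x : ℝ) : ℂ) * Complex.I + m * (2 * Real.pi * Complex.I) := by
    push_cast
    ring
  rw [this, Complex.exp_add, Complex.exp_int_mul_two_pi_mul_I, mul_one]

lemma e_sub_le (x y : ℝ) : ‖e x - e y‖ ≤ 2 * Real.pi * |x - y| := by
  have h1 : e x - e y = e y * (Complex.exp (Complex.I * ((2 * Real.pi * (x - y) : ℝ) : ℂ)) - 1) := by
    unfold e
    rw [mul_sub, mul_one, ← Complex.exp_add]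
    congr 2
    push_cast
    ring
  rw [h1, norm_mul, norm_e, one_mul]
  refine (Real.norm_exp_I_mul_ofReal_sub_one_le).trans ?_
  rw [Real.norm_eq_abs, abs_mul, abs_of_pos (by positivity : (0:ℝ) < 2 * Real.pi)]

lemma tw_prod (θ : ℕ → ℝ) {k : ℕ} (v : Fin k → ℕ) (hv : ∀ i, 1 ≤ v i) (s : Finset (Fin k)) :
    tw θ (∏ i ∈ s, v i) = ∏ i ∈ s, tw θ (v i) := by
  induction s using Finset.induction_on with
  | empty => rw [prod_empty, prod_empty]; exact pMUL.2.2.1 θ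
  | insert c s hc ih =>
    rw [prod_insert hc, prod_insert hc, pMUL.1 θ _ _ (by have := hv c; omega) ?_, ih]
    exact prod_ne_zero_iff.2 fun i _ => by have := hv i; omega

lemma pow_expand (θ : ℕ → ℝ) (k : ℕ) (I : Finset ℕ) (hI : ∀ n ∈ I, 1 ≤ n) (g : ℕ → ℂ) :
    (∑ n ∈ I, g n * tw θ n) ^ k =
      ∑ v ∈ Fintype.piFinset (fun _ : Fin k => I), (∏ i, g (v i)) * tw θ (∏ i, v i) := by
  have h1 : (∑ n ∈ I, g n * tw θ n) ^ k = ∏ _i : Fin k, ∑ n ∈ I, g n * tw θ n := by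
    rw [prod_const, card_univ, Fintype.card_fin]
  rw [h1, prod_univ_sum]
  refine sum_congr rfl fun v hv => ?_
  rw [prod_mul_distrib, tw_prod θ v (fun i => hI _ (Fintype.mem_piFinset.1 hv i))]

lemma tw_bdd_int (C : ℂ) (m n : ℕ) : Integrable (fun θ => C * (tw θ m * (starRingEnd ℂ) (tw θ n))) P := by
  refine Integrable.const_mul ?_ C
  have hc : Continuous (fun θ : ℕ → ℝ => tw θ m * (starRingEnd ℂ) (tw θ n)) :=
    (pMUL.2.2.2 m).mul (Complex.continuous_conj.comp (pMUL.2.2.2 n))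
  refine Integrable.of_bound hc.measurable.aestronglyMeasurable 1 (Eventually.of_forall fun θ => ?_)
  rw [norm_mul, RCLike.norm_conj, pMUL.2.1, pMUL.2.1, one_mul]

lemma mom (k : ℕ) (I : Finset ℕ) (hI : ∀ n ∈ I, 1 ≤ n) (g : ℕ → ℂ) (hg : ∀ n ∈ I, ‖g n‖ ≤ 1) (D : ℝ)
    (hD : ∀ v ∈ Fintype.piFinset (fun _ : Fin k => I),
      (((Fintype.piFinset (fun _ : Fin k => I)).filter fun w => ∏ i, v i = ∏ i, w i).card : ℝ) ≤ D) :
    ∫ θ, ‖∑ n ∈ I, g n * tw θ n‖ ^ (2 * k) ∂P ≤ (I.card : ℝ) ^ k * D := by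
  have h1 : ((∫ θ, ‖∑ n ∈ I, g n * tw θ n‖ ^ (2 * k) ∂P : ℝ) : ℂ) =
      ∑ v ∈ Fintype.piFinset (fun _ : Fin k => I), ∑ w ∈ Fintype.piFinset (fun _ : Fin k => I),
        ((∏ i, g (v i)) * (starRingEnd ℂ) (∏ i, g (w i))) * (if ∏ i, v i = ∏ i, w i then 1 else 0) := by
    rw [← integral_complex_ofReal]
    have h2 : ∀ θ : ℕ → ℝ, ((‖∑ n ∈ I, g n * tw θ n‖ ^ (2 * k) : ℝ) : ℂ) =
        ∑ v ∈ Fintype.piFinset (fun _ : Fin k => I), ∑ w ∈ Fintype.piFinset (fun _ : Fin k => I),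
          ((∏ i, g (v i)) * (starRingEnd ℂ) (∏ i, g (w i))) *
            (tw θ (∏ i, v i) * (starRingEnd ℂ) (tw θ (∏ i, w i))) := by
      intro θ
      set z := ∑ n ∈ I, g n * tw θ n with hz
      have h3 : ((‖z‖ ^ (2 * k) : ℝ) : ℂ) = z ^ k * (starRingEnd ℂ) (z ^ k) := by
        rw [map_pow, ← mul_pow, Complex.mul_conj, Complex.normSq_eq_norm_sq, pow_mul]
        push_cast
        rfl
      rw [h3, hz, pow_expand θ k I hI g, map_sum, sum_mul_sum]
      refine sum_congr rfl fun v _ => sum_congr rfl fun w _ => ?_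
      rw [map_mul]
      ring
    simp_rw [h2]
    rw [integral_finsetSum _ fun v _ => integrable_finsetSum _ fun w _ => tw_bdd_int _ _ _]
    refine sum_congr rfl fun v hv => ?_
    rw [integral_finsetSum _ fun w _ => tw_bdd_int _ _ _]
    refine sum_congr rfl fun w hw => ?_
    rw [integral_const_mul, pOR]
    · exact prod_ne_zero_iff.2 fun i _ => by have := hI _ (Fintype.mem_piFinset.1 hv i); omega
    · exact prod_ne_zero_iff.2 fun i _ => by have := hI _ (Fintype.mem_piFinset.1 hw i); omega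
  have h0 : 0 ≤ ∫ θ, ‖∑ n ∈ I, g n * tw θ n‖ ^ (2 * k) ∂P := integral_nonneg fun θ => by positivity
  have h2 : ∫ θ, ‖∑ n ∈ I, g n * tw θ n‖ ^ (2 * k) ∂P =
      ‖((∫ θ, ‖∑ n ∈ I, g n * tw θ n‖ ^ (2 * k) ∂P : ℝ) : ℂ)‖ := by
    rw [Complex.norm_real, Real.norm_eq_abs, abs_of_nonneg h0]
  rw [h2, h1]
  have hG : ∀ v ∈ Fintype.piFinset (fun _ : Fin k => I), ‖∏ i, g (v i)‖ ≤ 1 := by
    intro v hv
    rw [norm_prod]
    exact prod_le_one (fun i _ => norm_nonneg _) fun i _ => hg _ (Fintype.mem_piFinset.1 hv i)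
  calc ‖∑ v ∈ Fintype.piFinset (fun _ : Fin k => I), ∑ w ∈ Fintype.piFinset (fun _ : Fin k => I),
        ((∏ i, g (v i)) * (starRingEnd ℂ) (∏ i, g (w i))) * (if ∏ i, v i = ∏ i, w i then 1 else 0)‖
      ≤ ∑ v ∈ Fintype.piFinset (fun _ : Fin k => I), ∑ w ∈ Fintype.piFinset (fun _ : Fin k => I),
        (if ∏ i, v i = ∏ i, w i then (1 : ℝ) else 0) := by
        refine (norm_sum_le _ _).trans (sum_le_sum fun v hv => (norm_sum_le _ _).trans (sum_le_sum fun w hw => ?_))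
        rw [norm_mul, norm_mul, RCLike.norm_conj]
        have h3 : ‖∏ i, g (v i)‖ * ‖∏ i, g (w i)‖ ≤ 1 := mul_le_one₀ (hG v hv) (norm_nonneg _) (hG w hw)
        split_ifs
        · rw [norm_one, mul_one]
          exact h3
        · rw [norm_zero, mul_zero]
    _ = ∑ v ∈ Fintype.piFinset (fun _ : Fin k => I),
        (((Fintype.piFinset (fun _ : Fin k => I)).filter fun w => ∏ i, v i = ∏ i, w i).card : ℝ) := by
        refine sum_congr rfl fun v _ => ?_
        rw [← sum_filter, sum_const, nsmul_eq_mul, mul_one]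
    _ ≤ ∑ v ∈ Fintype.piFinset (fun _ : Fin k => I), D := sum_le_sum hD
    _ = (I.card : ℝ) ^ k * D := by
        rw [sum_const, nsmul_eq_mul, Fintype.card_piFinset, prod_const, card_univ, Fintype.card_fin]
        push_cast
        rfl

end Pool.Agent.T2H11.RTP
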