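import Pool.Agent.T2H11.RTP.Main

set_option autoImplicit false

open MeasureTheory Filter Topology Finset

namespace Pool.Agent.T2H11.RTP

open Pool.Agent.T2H98.RT (P tw b pMUL pOR pDIV)

/-- the moment bound for intervals: for `M ≤ H ^ A` the moment of order `2 k` is at most `C H ^ (k + 1)` -/
lemma mom_interval (k A : ℕ) (hk : 1 ≤ k) : ∃ C : ℝ, 0 < C ∧ ∀ M H : ℕ, 1 ≤ H → M ≤ H ^ A →
    ∀ g : ℕ → ℂ, (∀ n, ‖g n‖ ≤ 1) →
    ∫ θ, ‖∑ n ∈ Ioc M (M + H), g n * tw θ n‖ ^ (2 * k) ∂P ≤ C * (H : ℝ) ^ (k + 1) := by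
  obtain ⟨C, hC, hdiv, -⟩ := pDIV k (1 / (k * (A + 1))) (by positivity)
  refine ⟨2 * C, by positivity, fun M H hH hM g hg => ?_⟩
  have hH1 : (1 : ℝ) ≤ H := by exact_mod_cast hH
  have hX : ((M + H : ℕ) : ℝ) ≤ 2 * (H : ℝ) ^ (A + 1) := by
    have h1 : (M : ℝ) ≤ (H : ℝ) ^ A := by exact_mod_cast hM
    have h2 : (H : ℝ) ^ A ≤ (H : ℝ) ^ (A + 1) := pow_le_pow_right₀ hH1 (by omega)
    have h3 : (H : ℝ) ≤ (H : ℝ) ^ (A + 1) := le_self_pow₀ hH1 (by omega)
    push_cast
    linarith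
  have hI : ∀ n ∈ Ioc M (M + H), 1 ≤ n := by
    intro n hn
    have := (mem_Ioc.1 hn).1
    omega
  have key := mom k (Ioc M (M + H)) hI g (fun n _ => hg n) (2 * C * H) ?_
  · refine key.trans (le_of_eq ?_)
    rw [Nat.card_Ioc, Nat.add_sub_cancel_left]
    ring
  · intro v hv
    have hv1 : ∀ i, 1 ≤ v i ∧ v i ≤ M + H := by
      intro i
      have h1 := mem_Ioc.1 (Fintype.mem_piFinset.1 hv i)
      exact ⟨by omega, h1.2⟩
    have hpos : 1 ≤ ∏ i, v i := Nat.one_le_iff_ne_zero.2 (prod_ne_zero_iff.2 fun i _ => by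
      have := (hv1 i).1
      omega)
    have h1 : (((Fintype.piFinset (fun _ : Fin k => Ioc M (M + H))).filter
        fun w => ∏ i, v i = ∏ i, w i).card : ℝ) ≤ (b k (M + H) (∏ i, v i) : ℝ) := by
      have h2 : ((Fintype.piFinset (fun _ : Fin k => Ioc M (M + H))).filter
          fun w => ∏ i, v i = ∏ i, w i).card ≤ b k (M + H) (∏ i, v i) := by
        unfold Pool.Agent.T2H98.RT.b
        apply card_le_card
        intro w hw
        have h3 := mem_filter.1 hw
        refine mem_filter.2 ⟨?_, h3.2.symm⟩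
        rw [Fintype.mem_piFinset]
        intro i
        have h4 := mem_Ioc.1 (Fintype.mem_piFinset.1 h3.1 i)
        exact mem_Icc.2 ⟨by omega, h4.2⟩
      exact_mod_cast h2
    refine h1.trans ((hdiv (M + H) _ hpos).trans ?_)
    have h5 : ((∏ i, v i : ℕ) : ℝ) ≤ (2 * (H : ℝ) ^ (A + 1)) ^ k := by
      push_cast
      calc ∏ i, (v i : ℝ) ≤ ∏ _i : Fin k, (2 * (H : ℝ) ^ (A + 1)) := by
            refine prod_le_prod (fun i _ => Nat.cast_nonneg _) fun i _ => ?_
            refine le_trans ?_ hX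
            exact_mod_cast (hv1 i).2
        _ = (2 * (H : ℝ) ^ (A + 1)) ^ k := by
            rw [prod_const, card_univ, Fintype.card_fin]
    have h6 : ((∏ i, v i : ℕ) : ℝ) ^ (1 / ((k : ℝ) * (A + 1))) ≤ 2 * H := by
      have hk0 : (0 : ℝ) < k := by exact_mod_cast hk
      calc ((∏ i, v i : ℕ) : ℝ) ^ (1 / ((k : ℝ) * (A + 1)))
          ≤ ((2 * (H : ℝ) ^ (A + 1)) ^ k) ^ (1 / ((k : ℝ) * (A + 1))) :=
            Real.rpow_le_rpow (Nat.cast_nonneg _) h5 (by positivity)
        _ = (2 * (H : ℝ) ^ (A + 1)) ^ (1 / ((A : ℝ) + 1)) := by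
            rw [← Real.rpow_natCast, ← Real.rpow_mul (by positivity)]
            congr 1
            field_simp
        _ = 2 ^ (1 / ((A : ℝ) + 1)) * ((H : ℝ) ^ (A + 1)) ^ (1 / ((A : ℝ) + 1)) := by
            rw [Real.mul_rpow (by norm_num) (by positivity)]
        _ ≤ 2 * H := by
            have e1 : ((H : ℝ) ^ (A + 1)) ^ (1 / ((A : ℝ) + 1)) = H := by
              rw [← Real.rpow_natCast, ← Real.rpow_mul (by positivity)]
              have : ((A + 1 : ℕ) : ℝ) * (1 / ((A : ℝ) + 1)) = 1 := by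
                push_cast
                field_simp
              rw [this, Real.rpow_one]
            have e2 : (2 : ℝ) ^ (1 / ((A : ℝ) + 1)) ≤ 2 := by
              calc (2 : ℝ) ^ (1 / ((A : ℝ) + 1)) ≤ (2 : ℝ) ^ (1 : ℝ) := by
                    apply Real.rpow_le_rpow_of_exponent_le (by norm_num)
                    rw [div_le_one (by positivity)]
                    have : (0 : ℝ) ≤ A := Nat.cast_nonneg _
                    linarith
                _ = 2 := Real.rpow_one 2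
            rw [e1]
            gcongr
    calc C * ((∏ i, v i : ℕ) : ℝ) ^ (1 / ((k : ℝ) * (A + 1))) ≤ C * (2 * H) := by gcongr
      _ = 2 * C * H := by ring

/-- every polynomial phase is close to one of a finite net -/
lemma net (d A M H : ℕ) (hH : 1 ≤ H) (hM : M ≤ H ^ A) (a : ℕ → ℂ) (ha : ∀ n, ‖a n‖ ≤ 1) (θ : ℕ → ℝ)
    (α : Fin (d + 1) → ℝ) :
    ∃ c ∈ Fintype.piFinset (fun _ : Fin (d + 1) => range (H ^ ((A + 1) * d + 1))),
      ‖W a θ d α M H - W a θ d (fun j => (c j : ℝ) / (H : ℝ) ^ ((A + 1) * d + 1)) M H‖ ≤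
        2 * Real.pi * ((d + 1) * 2 ^ d) := by
  have hH1 : (1 : ℝ) ≤ H := by exact_mod_cast hH
  have hH0 : (0 : ℝ) < H := by linarith
  set K : ℕ := H ^ ((A + 1) * d + 1) with hK
  have hK1 : 1 ≤ K := Nat.one_le_pow _ _ hH
  have hKr : (0 : ℝ) < K := by exact_mod_cast hK1
  have hKeq : (H : ℝ) ^ ((A + 1) * d + 1) = (K : ℝ) := by rw [hK]; push_cast; rfl
  rw [hKeq]
  refine ⟨fun j => ⌊Int.fract (α j) * K⌋₊, ?_, ?_⟩
  · rw [Fintype.mem_piFinset]
    intro j
    rw [mem_range, Nat.floor_lt (mul_nonneg (Int.fract_nonneg _) hKr.le)]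
    have := Int.fract_lt_one (α j)
    nlinarith
  · have hδ : ∀ j, |Int.fract (α j) - ((⌊Int.fract (α j) * K⌋₊ : ℕ) : ℝ) / K| ≤ 1 / K := by
      intro j
      have h1 := Nat.floor_le (mul_nonneg (Int.fract_nonneg (α j)) hKr.le)
      have h2 := Nat.lt_floor_add_one (Int.fract (α j) * K)
      have h3 : Int.fract (α j) - ((⌊Int.fract (α j) * K⌋₊ : ℕ) : ℝ) / K =
          (Int.fract (α j) * K - ((⌊Int.fract (α j) * K⌋₊ : ℕ) : ℝ)) / K := by field_simp
      rw [h3, abs_div, abs_of_pos hKr, abs_of_nonneg (by linarith)]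
      gcongr
      linarith
    have hfr : ∀ n : ℕ, e (phase d α n) = e (phase d (fun j => Int.fract (α j)) n) := by
      intro n
      have h1 : phase d α n = phase d (fun j => Int.fract (α j)) n + ((∑ j : Fin (d + 1), ⌊α j⌋ * (n : ℤ) ^ (j : ℕ) : ℤ) : ℝ) := by
        unfold phase
        push_cast
        rw [← sum_add_distrib]
        refine sum_congr rfl fun j _ => ?_
        rw [← add_mul, Int.fract_add_floor]
      rw [h1, e_add_int]
    have hterm : ∀ n ∈ Ioc M (M + H), ‖a n * tw θ n * e (phase d α n) -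
        a n * tw θ n * e (phase d (fun j => ((⌊Int.fract (α j) * K⌋₊ : ℕ) : ℝ) / K) n)‖ ≤
        2 * Real.pi * ((d + 1) * 2 ^ d) / H := by
      intro n hn
      have hn1 : (n : ℝ) ≤ 2 * (H : ℝ) ^ (A + 1) := by
        have h1 : (M : ℝ) ≤ (H : ℝ) ^ A := by exact_mod_cast hM
        have h2 : (H : ℝ) ^ A ≤ (H : ℝ) ^ (A + 1) := pow_le_pow_right₀ hH1 (by omega)
        have h3 : (H : ℝ) ≤ (H : ℝ) ^ (A + 1) := le_self_pow₀ hH1 (by omega)
        have h4 : (n : ℝ) ≤ ((M + H : ℕ) : ℝ) := by exact_mod_cast (mem_Ioc.1 hn).2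
        push_cast at h4
        linarith
      have hn0 : 1 ≤ 2 * (H : ℝ) ^ (A + 1) := by
        have : 1 ≤ (H : ℝ) ^ (A + 1) := one_le_pow₀ hH1
        linarith
      rw [← mul_sub, norm_mul, norm_mul, pMUL.2.1, mul_one, hfr n]
      have h5 : |phase d (fun j => Int.fract (α j)) n -
          phase d (fun j => ((⌊Int.fract (α j) * K⌋₊ : ℕ) : ℝ) / K) n| ≤ (d + 1) * 2 ^ d / H := by
        unfold phase
        rw [← sum_sub_distrib]
        refine (abs_sum_le_sum_abs _ _).trans ?_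
        calc ∑ j : Fin (d + 1), |Int.fract (α j) * (n : ℝ) ^ (j : ℕ) -
              ((⌊Int.fract (α j) * K⌋₊ : ℕ) : ℝ) / K * (n : ℝ) ^ (j : ℕ)|
            ≤ ∑ _j : Fin (d + 1), (2 : ℝ) ^ d / H := by
              refine sum_le_sum fun j _ => ?_
              rw [← sub_mul, abs_mul, abs_of_nonneg (by positivity : (0:ℝ) ≤ (n : ℝ) ^ (j : ℕ))]
              have h6 : (n : ℝ) ^ (j : ℕ) ≤ (2 * (H : ℝ) ^ (A + 1)) ^ d :=
                (pow_le_pow_left₀ (Nat.cast_nonneg _) hn1 _).trans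
                  (pow_le_pow_right₀ hn0 (by have := j.2; omega))
              calc |Int.fract (α j) - ((⌊Int.fract (α j) * K⌋₊ : ℕ) : ℝ) / K| * (n : ℝ) ^ (j : ℕ)
                  ≤ 1 / K * (2 * (H : ℝ) ^ (A + 1)) ^ d :=
                    mul_le_mul (hδ j) h6 (by positivity) (by positivity)
                _ = (2 : ℝ) ^ d / H := by
                    rw [← hKeq, mul_pow, ← pow_mul, pow_succ]
                    field_simp
          _ = (d + 1) * 2 ^ d / H := by
              rw [sum_const, card_univ, Fintype.card_fin, nsmul_eq_mul]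
              push_cast
              ring
      calc ‖a n‖ * ‖e (phase d (fun j => Int.fract (α j)) n) -
            e (phase d (fun j => ((⌊Int.fract (α j) * K⌋₊ : ℕ) : ℝ) / K) n)‖
          ≤ 1 * (2 * Real.pi * ((d + 1) * 2 ^ d / H)) := by
            refine mul_le_mul (ha n) ?_ (norm_nonneg _) zero_le_one
            refine (e_sub_le _ _).trans ?_
            gcongr
        _ = 2 * Real.pi * ((d + 1) * 2 ^ d) / H := by ring
    unfold W
    rw [← sum_sub_distrib]
    calc ‖∑ n ∈ Ioc M (M + H), (a n * tw θ n * e (phase d α n) -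
          a n * tw θ n * e (phase d (fun j => ((⌊Int.fract (α j) * K⌋₊ : ℕ) : ℝ) / K) n))‖
        ≤ ∑ n ∈ Ioc M (M + H), 2 * Real.pi * ((d + 1) * 2 ^ d) / H := (norm_sum_le _ _).trans (sum_le_sum hterm)
      _ = 2 * Real.pi * ((d + 1) * 2 ^ d) := by
          rw [sum_const, Nat.card_Ioc, Nat.add_sub_cancel_left, nsmul_eq_mul]
          field_simp

end Pool.Agent.T2H11.RTP
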