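import Pool.Agent.T2H11.RTP.Fin

set_option autoImplicit false

open MeasureTheory Filter Topology Finset

namespace Pool.Agent.T2H11.RTP

open Pool.Agent.T2H98.RT (P tw b pMUL pOR pDIV)

/-- the twists by characters modulo `q ≤ H ^ A` and by `n ^ (i t)`, `t` in a net -/
abbrev Idx (A H : ℕ) : Type := (Σ q : Fin (H ^ A), DirichletCharacter ℂ (q.1 + 1)) × Fin (2 * H ^ (2 * A + 2) + 1)

noncomputable instance (A H : ℕ) : Fintype (Idx A H) := Fintype.ofFinite _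

lemma card_char (q : ℕ) (hq : 1 ≤ q) : Nat.card (DirichletCharacter ℂ q) ≤ q := by
  haveI : NeZero q := ⟨by omega⟩
  rw [DirichletCharacter.card_eq_totient_of_hasEnoughRootsOfUnity]
  exact Nat.totient_le q

lemma card_idx (A H : ℕ) (hH : 1 ≤ H) : Fintype.card (Idx A H) ≤ 3 * H ^ (4 * A + 2) := by
  rw [← Nat.card_eq_fintype_card, Nat.card_prod, Nat.card_sigma, Nat.card_eq_fintype_card, Fintype.card_fin]
  have h1 : ∑ q : Fin (H ^ A), Nat.card (DirichletCharacter ℂ (q.1 + 1)) ≤ H ^ A * H ^ A := by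
    calc ∑ q : Fin (H ^ A), Nat.card (DirichletCharacter ℂ (q.1 + 1)) ≤ ∑ _q : Fin (H ^ A), H ^ A := by
          refine sum_le_sum fun q _ => (card_char _ (by omega)).trans ?_
          have := q.2
          omega
      _ = H ^ A * H ^ A := by rw [sum_const, card_univ, Fintype.card_fin, smul_eq_mul]
  have h2 : 2 * H ^ (2 * A + 2) + 1 ≤ 3 * H ^ (2 * A + 2) := by
    have : 1 ≤ H ^ (2 * A + 2) := Nat.one_le_pow _ _ hH
    omega
  calc (∑ q : Fin (H ^ A), Nat.card (DirichletCharacter ℂ (q.1 + 1))) * (2 * H ^ (2 * A + 2) + 1)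
      ≤ (H ^ A * H ^ A) * (3 * H ^ (2 * A + 2)) := Nat.mul_le_mul h1 h2
    _ = 3 * H ^ (4 * A + 2) := by ring

/-- `n ^ (i t)` -/
noncomputable def nit (t : ℝ) (n : ℕ) : ℂ := Complex.exp (((t * Real.log n : ℝ) : ℂ) * Complex.I)

lemma norm_nit (t : ℝ) (n : ℕ) : ‖nit t n‖ = 1 := by
  unfold nit
  exact Complex.norm_exp_ofReal_mul_I _

lemma nit_eq (t : ℝ) (n : ℕ) (hn : 1 ≤ n) : (n : ℂ) ^ (t * Complex.I) = nit t n := by
  have hn0 : (n : ℂ) ≠ 0 := by exact_mod_cast (by omega : n ≠ 0)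
  unfold nit
  rw [Complex.cpow_def_of_ne_zero hn0]
  congr 1
  have h2 : Complex.log (n : ℂ) = ((Real.log n : ℝ) : ℂ) := by
    rw [Complex.ofReal_log (Nat.cast_nonneg n)]
    norm_num
  rw [h2]
  push_cast
  ring

lemma nit_sub (s t : ℝ) (n : ℕ) : ‖nit s n - nit t n‖ ≤ |s - t| * n := by
  have h1 : nit s n - nit t n = nit t n * (Complex.exp (Complex.I * (((s - t) * Real.log n : ℝ) : ℂ)) - 1) := by
    unfold nit
    rw [mul_sub, mul_one, ← Complex.exp_add]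
    congr 2
    push_cast
    ring
  rw [h1, norm_mul, norm_nit, one_mul]
  refine (Real.norm_exp_I_mul_ofReal_sub_one_le).trans ?_
  rw [Real.norm_eq_abs, abs_mul]
  gcongr
  rw [abs_of_nonneg (Real.log_natCast_nonneg n)]
  exact Real.log_le_self (Nat.cast_nonneg n)

/-- the family of twists -/
noncomputable def fam (a : ℕ → ℂ) (A H : ℕ) (i : Idx A H) (n : ℕ) : ℂ :=
  a n * (i.1.2 (n : ZMod (i.1.1.1 + 1)) * nit (((i.2.1 : ℝ) - (H : ℝ) ^ (2 * A + 2)) / (H : ℝ) ^ (A + 2)) n)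

lemma fam_le (a : ℕ → ℂ) (ha : ∀ n, ‖a n‖ ≤ 1) (A H : ℕ) (i : Idx A H) (n : ℕ) : ‖fam a A H i n‖ ≤ 1 := by
  unfold fam
  rw [norm_mul, norm_mul, norm_nit, mul_one]
  exact mul_le_one₀ (ha n) (norm_nonneg _) (DirichletCharacter.norm_le_one _ _)

/-- the twisted sum -/
noncomputable def V (a : ℕ → ℂ) (θ : ℕ → ℝ) (q : ℕ) (χ : DirichletCharacter ℂ q) (t : ℝ) (d : ℕ)
    (α : Fin (d + 1) → ℝ) (M H : ℕ) : ℂ :=
  ∑ n ∈ Ioc M (M + H), a n * tw θ n * χ (n : ZMod q) * (n : ℂ) ^ (t * Complex.I) * e (phase d α n)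

lemma V_close (a : ℕ → ℂ) (ha : ∀ n, ‖a n‖ ≤ 1) (θ : ℕ → ℝ) (A H M : ℕ) (hH : 1 ≤ H) (hM : M ≤ H ^ A)
    (q : ℕ) (hq : 1 ≤ q) (hqA : q ≤ H ^ A) (χ : DirichletCharacter ℂ q) (t : ℝ) (ht : |t| ≤ (H : ℝ) ^ A)
    (d : ℕ) (α : Fin (d + 1) → ℝ) :
    ∃ i : Idx A H, ‖V a θ q χ t d α M H‖ ≤ ‖W (fam a A H i) θ d α M H‖ + 2 := by
  have hH1 : (1 : ℝ) ≤ H := by exact_mod_cast hH
  have hH0 : (0 : ℝ) < H := by linarith
  obtain ⟨q', rfl⟩ : ∃ q', q = q' + 1 := ⟨q - 1, by omega⟩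
  have ht' := abs_le.1 ht
  have hB : (0 : ℝ) < (H : ℝ) ^ (A + 2) := by positivity
  have hsum : (H : ℝ) ^ (2 * A + 2) = (H : ℝ) ^ A * (H : ℝ) ^ (A + 2) := by
    rw [← pow_add]
    congr 1
    ring
  have hx0 : 0 ≤ (t + (H : ℝ) ^ A) * (H : ℝ) ^ (A + 2) := mul_nonneg (by linarith [ht'.1]) hB.le
  have hx1 : (t + (H : ℝ) ^ A) * (H : ℝ) ^ (A + 2) ≤ 2 * (H : ℝ) ^ (2 * A + 2) := by
    rw [hsum]
    nlinarith [ht'.2]
  set j : ℕ := ⌊(t + (H : ℝ) ^ A) * (H : ℝ) ^ (A + 2)⌋₊ with hj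
  have hj1 : (j : ℝ) ≤ (t + (H : ℝ) ^ A) * (H : ℝ) ^ (A + 2) := Nat.floor_le hx0
  have hj2 : (t + (H : ℝ) ^ A) * (H : ℝ) ^ (A + 2) < j + 1 := Nat.lt_floor_add_one _
  have hj3 : j < 2 * H ^ (2 * A + 2) + 1 := by
    have : (j : ℝ) ≤ ((2 * H ^ (2 * A + 2) : ℕ) : ℝ) := by
      push_cast
      linarith
    have h2 : j ≤ 2 * H ^ (2 * A + 2) := by exact_mod_cast this
    omega
  refine ⟨(⟨⟨q', by omega⟩, χ⟩, ⟨j, hj3⟩), ?_⟩
  set s : ℝ := ((j : ℝ) - (H : ℝ) ^ (2 * A + 2)) / (H : ℝ) ^ (A + 2) with hs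
  have hts : |t - s| ≤ 1 / (H : ℝ) ^ (A + 2) := by
    have h1 : t - s = ((t + (H : ℝ) ^ A) * (H : ℝ) ^ (A + 2) - j) / (H : ℝ) ^ (A + 2) := by
      rw [hs, hsum]
      field_simp
      ring
    rw [h1, abs_div, abs_of_pos hB, abs_of_nonneg (by linarith)]
    gcongr
    linarith
  have hterm : ∀ n ∈ Ioc M (M + H),
      ‖a n * tw θ n * χ (n : ZMod (q' + 1)) * (n : ℂ) ^ (t * Complex.I) * e (phase d α n) -
        a n * (χ (n : ZMod (q' + 1)) * nit s n) * tw θ n * e (phase d α n)‖ ≤ 2 / H := by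
    intro n hn
    have hn1 : 1 ≤ n := by
      have := (mem_Ioc.1 hn).1
      omega
    have hn2 : (n : ℝ) ≤ 2 * (H : ℝ) ^ (A + 1) := by
      have h1 : (M : ℝ) ≤ (H : ℝ) ^ A := by exact_mod_cast hM
      have h2 : (H : ℝ) ^ A ≤ (H : ℝ) ^ (A + 1) := pow_le_pow_right₀ hH1 (by omega)
      have h3 : (H : ℝ) ≤ (H : ℝ) ^ (A + 1) := le_self_pow₀ hH1 (by omega)
      have h4 : (n : ℝ) ≤ ((M + H : ℕ) : ℝ) := by exact_mod_cast (mem_Ioc.1 hn).2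
      push_cast at h4
      linarith
    rw [nit_eq t n hn1]
    have h5 : a n * tw θ n * χ (n : ZMod (q' + 1)) * nit t n * e (phase d α n) -
        a n * (χ (n : ZMod (q' + 1)) * nit s n) * tw θ n * e (phase d α n) =
        a n * tw θ n * χ (n : ZMod (q' + 1)) * e (phase d α n) * (nit t n - nit s n) := by ring
    rw [h5, norm_mul, norm_mul, norm_mul, norm_mul, pMUL.2.1, norm_e, mul_one, mul_one]
    calc ‖a n‖ * ‖χ (n : ZMod (q' + 1))‖ * ‖nit t n - nit s n‖ ≤ 1 * (1 / (H : ℝ) ^ (A + 2) * (2 * (H : ℝ) ^ (A + 1))) := by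
          refine mul_le_mul (mul_le_one₀ (ha n) (norm_nonneg _) (DirichletCharacter.norm_le_one _ _)) ?_
            (norm_nonneg _) zero_le_one
          refine (nit_sub t s n).trans ?_
          exact mul_le_mul hts hn2 (Nat.cast_nonneg _) (by positivity)
      _ = 2 / H := by
          rw [show A + 2 = (A + 1) + 1 by ring, pow_succ (H : ℝ) (A + 1)]
          field_simp
  have hW : W (fam a A H (⟨⟨q', by omega⟩, χ⟩, ⟨j, hj3⟩)) θ d α M H =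
      ∑ n ∈ Ioc M (M + H), a n * (χ (n : ZMod (q' + 1)) * nit s n) * tw θ n * e (phase d α n) := rfl
  have h6 : ‖V a θ (q' + 1) χ t d α M H - W (fam a A H (⟨⟨q', by omega⟩, χ⟩, ⟨j, hj3⟩)) θ d α M H‖ ≤ 2 := by
    rw [hW]
    unfold V
    rw [← sum_sub_distrib]
    calc ‖∑ n ∈ Ioc M (M + H), (a n * tw θ n * χ (n : ZMod (q' + 1)) * (n : ℂ) ^ (t * Complex.I) * e (phase d α n) -
          a n * (χ (n : ZMod (q' + 1)) * nit s n) * tw θ n * e (phase d α n))‖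
        ≤ ∑ n ∈ Ioc M (M + H), (2 : ℝ) / H := (norm_sum_le _ _).trans (sum_le_sum hterm)
      _ = 2 := by
          rw [sum_const, Nat.card_Ioc, Nat.add_sub_cancel_left, nsmul_eq_mul]
          field_simp
  calc ‖V a θ (q' + 1) χ t d α M H‖ = ‖W (fam a A H (⟨⟨q', by omega⟩, χ⟩, ⟨j, hj3⟩)) θ d α M H +
        (V a θ (q' + 1) χ t d α M H - W (fam a A H (⟨⟨q', by omega⟩, χ⟩, ⟨j, hj3⟩)) θ d α M H)‖ := by
        congr 1
        ring
    _ ≤ _ := (norm_add_le _ _).trans (by linarith)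

/-- almost every twist: uniform square root cancellation, for all characters, all `n ^ (i t)` and all polynomial phases -/
theorem twists (a : ℕ → ℂ) (ha : ∀ n, ‖a n‖ ≤ 1) : ∀ᵐ θ ∂P, ∀ (d A : ℕ) (ε : ℝ), 0 < ε → ∃ C : ℝ,
    ∀ M H : ℕ, 1 ≤ H → M ≤ H ^ A → ∀ q : ℕ, 1 ≤ q → q ≤ H ^ A → ∀ (χ : DirichletCharacter ℂ q) (t : ℝ),
    |t| ≤ (H : ℝ) ^ A → ∀ α : Fin (d + 1) → ℝ, ‖V a θ q χ t d α M H‖ ≤ C * (H : ℝ) ^ (1 / 2 + ε) := by
  have h1 : ∀ᵐ θ ∂P, ∀ A : ℕ, ∀ (d A' : ℕ) (ε : ℝ), 0 < ε → ∃ C : ℝ,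
    ∀ M H : ℕ, 1 ≤ H → M ≤ H ^ A' → ∀ (i : Idx A H) (α : Fin (d + 1) → ℝ),
      ‖W (fam a A H i) θ d α M H‖ ≤ C * (H : ℝ) ^ (1 / 2 + ε) := by
    rw [ae_all_iff]
    intro A
    exact main (fun H => Idx A H) (fun H i => fam a A H i) (fun H i n => fam_le a ha A H i n) (4 * A + 2) 3
      (fun H hH => card_idx A H hH)
  filter_upwards [h1] with θ hθ d A ε hε
  obtain ⟨C, hC⟩ := hθ A d A ε hε
  refine ⟨C + 2, fun M H hH hM q hq hqA χ t ht α => ?_⟩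
  have hHr : (1 : ℝ) ≤ H := by exact_mod_cast hH
  have hHε : 1 ≤ (H : ℝ) ^ (1 / 2 + ε) := Real.one_le_rpow hHr (by positivity)
  obtain ⟨i, hi⟩ := V_close a ha θ A H M hH hM q hq hqA χ t ht d α
  have h2 := hC M H hH hM i α
  nlinarith

end Pool.Agent.T2H11.RTP
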